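import Pool.Agent.Helper72.AI.Stmts

set_option autoImplicit false

namespace Pool.Agent.Helper75.AI

open AffInc MeasureTheory

lemma disc_det_le (X : Fin 3 → ℝ × ℝ) (h : ∀ i, X i ∈ Disc) :
    det3 X ≤ 3 * Real.sqrt 3 / 2 := by
  have h0 : (X 0).1 ^ 2 + (X 0).2 ^ 2 ≤ 1 := h 0
  have h1 : (X 1).1 ^ 2 + (X 1).2 ^ 2 ≤ 1 := h 1
  have h2 : (X 2).1 ^ 2 + (X 2).2 ^ 2 ≤ 1 := h 2
  unfold det3
  generalize (X 0).1 = p at *
  generalize (X 0).2 = q at *
  generalize (X 1).1 = a at *
  generalize (X 1).2 = b at *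
  generalize (X 2).1 = c at *
  generalize (X 2).2 = d at *
  set s := Real.sqrt 3 with hs
  have hs2 : s ^ 2 = 3 := Real.sq_sqrt (by norm_num)
  have hs0 : 0 < s := Real.sqrt_pos.2 (by norm_num)
  -- Weitzenboeck
  set D := (a - p) * (d - q) - (b - q) * (c - p) with hD
  have key : 2 * s * D ≤ 9 := by
    have e1 : 0 ≤ ((a - p) - (c - p) / 2 - s * (d - q) / 2) ^ 2
        + ((b - q) - (d - q) / 2 + s * (c - p) / 2) ^ 2 := by positivity
    have e2 : ((a - p) - (c - p) / 2 - s * (d - q) / 2) ^ 2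
        + ((b - q) - (d - q) / 2 + s * (c - p) / 2) ^ 2
        = (a - p) ^ 2 + (b - q) ^ 2 - (a - p) * (c - p) - (b - q) * (d - q)
          + ((c - p) ^ 2 + (d - q) ^ 2) * (1 / 4 + s ^ 2 / 4) - s * D := by
      rw [hD]; ring
    rw [e2, hs2] at e1
    have e3 : 0 ≤ (p + a + c) ^ 2 + (q + b + d) ^ 2 := by positivity
    nlinarith
  have h3 : s * (2 * D) ≤ s * (3 * s) := by
    have : s * (3 * s) = 9 := by
      rw [show s * (3 * s) = 3 * s ^ 2 by ring, hs2]
      norm_num
    rw [this]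
    linarith
  have h4 := le_of_mul_le_mul_left h3 hs0
  linarith

lemma det_swap' (X : Fin 3 → ℝ × ℝ) : det3 (fun i => X (Equiv.swap 0 1 i)) = - det3 X := by
  have h0 : Equiv.swap (0 : Fin 3) 1 0 = 1 := by decide
  have h1 : Equiv.swap (0 : Fin 3) 1 1 = 0 := by decide
  have h2 : Equiv.swap (0 : Fin 3) 1 2 = 2 := by decide
  simp only [det3, h0, h1, h2]
  ring

lemma area_disc : area Disc = Real.pi := by
  have h1 : Disc = Complex.measurableEquivRealProd '' Metric.closedBall (0 : ℂ) 1 := by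
    ext p
    constructor
    · intro hp
      refine ⟨⟨p.1, p.2⟩, ?_, ?_⟩
      · have hp' : p.1 ^ 2 + p.2 ^ 2 ≤ 1 := hp
        rw [mem_closedBall_zero_iff, Complex.norm_def, Complex.normSq_mk]
        rw [Real.sqrt_le_left (by norm_num)]
        nlinarith
      · rfl
    · rintro ⟨z, hz, rfl⟩
      rw [mem_closedBall_zero_iff, Complex.norm_def, Real.sqrt_le_left (by norm_num),
        Complex.normSq_apply] at hz
      change z.re ^ 2 + z.im ^ 2 ≤ 1
      nlinarith
  have h2 : volume Disc = volume (Metric.closedBall (0 : ℂ) 1) := by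
    rw [h1, ← Complex.volume_preserving_equiv_real_prod.measure_preimage_equiv]
    rw [Complex.measurableEquivRealProd.preimage_image]
  unfold area
  rw [h2, Complex.volume_closedBall]
  simp

theorem pf_S_disc : AffInc.S_disc := by
  refine ⟨fun X hX => ?_, area_disc⟩
  rw [abs_le]
  constructor
  · have := disc_det_le (fun i => X (Equiv.swap 0 1 i)) (fun i => hX _)
    rw [det_swap'] at this
    linarith
  · exact disc_det_le X hX

end Pool.Agent.Helper75.AI
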