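import Pool.Agent.Helper72.AI.Stmts

set_option autoImplicit false

namespace Pool.Agent.Helper75.AI

open AffInc

lemma det_lam (p : ℝ × ℝ) (i : Fin 3) : det3 (Function.update S0 i p) = lam p i := by
  fin_cases i <;> simp [det3, S0, lam, Function.update] <;> ring

lemma det_swap (X : Fin 3 → ℝ × ℝ) : det3 (fun i => X (Equiv.swap 0 1 i)) = - det3 X := by
  have h0 : Equiv.swap (0 : Fin 3) 1 0 = 1 := by decide
  have h1 : Equiv.swap (0 : Fin 3) 1 1 = 0 := by decide
  have h2 : Equiv.swap (0 : Fin 3) 1 2 = 2 := by decide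
  simp only [det3, h0, h1, h2]
  ring

lemma lam_cont (i : Fin 3) : Continuous fun p : ℝ × ℝ => lam p i := by
  fin_cases i
  · change Continuous fun p : ℝ × ℝ => 1 - p.1 - p.2
    fun_prop
  · change Continuous fun p : ℝ × ℝ => p.1
    fun_prop
  · change Continuous fun p : ℝ × ℝ => p.2
    fun_prop

theorem pf_S_fgeom : AffInc.S_fgeom := by
  intro F hF hM
  have hS : ∀ i, S0 i ∈ F := hM.1
  have hup : ∀ p ∈ F, ∀ i j, Function.update S0 i p j ∈ F := by
    intro p hp i j
    by_cases h : j = i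
    · subst h
      rw [Function.update_self]
      exact hp
    · rw [Function.update_of_ne h]
      exact hS j
  have hle : ∀ p ∈ F, ∀ i, lam p i ≤ 1 := by
    intro p hp i
    have := hM.2 _ (hup p hp i)
    rwa [det_lam, det3_S0] at this
  have hge : ∀ p ∈ F, ∀ i, - lam p i ≤ 1 := by
    intro p hp i
    have := hM.2 (fun j => Function.update S0 i p (Equiv.swap 0 1 j)) (fun j => hup p hp i _)
    rwa [det_swap, det_lam, det3_S0] at this
  have hmax : ∀ i, ∃ p ∈ F, ∀ q ∈ F, - lam q i ≤ - lam p i := by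
    intro i
    obtain ⟨p, hp, hpm⟩ := hF.cpt.exists_isMaxOn ⟨S0 0, hS 0⟩
      ((lam_cont i).neg.continuousOn (s := F))
    exact ⟨p, hp, fun q hq => hpm hq⟩
  choose P hP hPm using hmax
  refine ⟨fun i => - lam (P i) i, ?_, fun i => hge _ (hP i) i, ?_, fun i => ⟨P i, hP i, by simp⟩⟩
  · intro i
    have h : ∃ j : Fin 3, lam (S0 j) i = 0 := by
      fin_cases i
      · exact ⟨1, by simp [lam, S0]⟩
      · exact ⟨0, by simp [lam, S0]⟩
      · exact ⟨0, by simp [lam, S0]⟩
    obtain ⟨j, hj⟩ := h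
    have := hPm i (S0 j) (hS j)
    rw [hj] at this
    simpa using this
  · intro p hp i
    refine ⟨?_, hle p hp i⟩
    have := hPm i p hp
    linarith

end Pool.Agent.Helper75.AI
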